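import Mathlib

/-!
# A twisted curve with no neighborly family of Voronoi regions

The curve is an arc on the unit sphere of `ℝ³` no four points of which are coplanar.  For points
of a sphere the closed Voronoi regions are cones, and among any five points some two of the
closed regions meet inside a line.
-/

namespace Pool.Agent.Results.MP_5b0acc_co.SphericalTwisted

open MeasureTheory Set

/-- Euclidean three-space. -/
abbrev E3 := EuclideanSpace ℝ (Fin 3)

/-- A curve: the image of an interval (with more than one point) under a map that is continuous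
and injective on it. -/
def IsCurve (γ : Set E3) : Prop :=
  ∃ (I : Set ℝ) (f : ℝ → E3),
    I.OrdConnected ∧ I.Nontrivial ∧ ContinuousOn f I ∧ InjOn f I ∧ γ = f '' I

/-- The points of `s` lie in a common plane. -/
def InPlane (s : Set E3) : Prop :=
  ∃ (n : E3) (h : ℝ), n ≠ 0 ∧ ∀ p ∈ s, inner ℝ n p = h

/-- Twisted: no four distinct points lie in a common plane. -/
def Twisted (γ : Set E3) : Prop :=
  ∀ a ∈ γ, ∀ b ∈ γ, ∀ c ∈ γ, ∀ d ∈ γ,
    a ≠ b → a ≠ c → a ≠ d → b ≠ c → b ≠ d → c ≠ d → ¬ InPlane {a, b, c, d}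

/-- The Voronoi region of `x` with respect to `S`. -/
def Vor (S : Set E3) (x : E3) : Set E3 :=
  {y | ∀ z ∈ S, z ≠ x → dist y x < dist y z}

/-- The parametrisation: inverse stereographic image of the parabola point `(t, t²)`. -/
noncomputable def arc (t : ℝ) : E3 :=
  !₂[2 * t / (1 + t ^ 2 + t ^ 4), 2 * t ^ 2 / (1 + t ^ 2 + t ^ 4),
    (t ^ 2 + t ^ 4 - 1) / (1 + t ^ 2 + t ^ 4)]

lemma den_pos (t : ℝ) : 0 < 1 + t ^ 2 + t ^ 4 := by positivity

lemma arc_norm (t : ℝ) : ‖arc t‖ = 1 := by
  have h := den_pos t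
  have : ‖arc t‖ ^ 2 = 1 := by
    rw [EuclideanSpace.norm_sq_eq, Fin.sum_univ_three]
    simp only [arc, Real.norm_eq_abs, sq_abs]
    simp
    field_simp
    ring
  nlinarith [norm_nonneg (arc t)]

lemma arc_cont : Continuous arc := by
  unfold arc
  refine (PiLp.continuous_toLp 2 _).comp ?_
  refine continuous_pi ?_
  intro i
  fin_cases i
  · simp only [Fin.zero_eta, Matrix.cons_val_zero]
    exact Continuous.div (by fun_prop) (by fun_prop) (fun t => (den_pos t).ne')
  · simp only [Fin.mk_one, Matrix.cons_val_one]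
    exact Continuous.div (by fun_prop) (by fun_prop) (fun t => (den_pos t).ne')
  · simp only [Fin.reduceFinMk, Matrix.cons_val]
    exact Continuous.div (by fun_prop) (by fun_prop) (fun t => (den_pos t).ne')

lemma arc_inj {s t : ℝ} (ht : 0 < t) (h : arc s = arc t) : s = t := by
  have h0 : (arc s) 0 = (arc t) 0 := by rw [h]
  have h1 : (arc s) 1 = (arc t) 1 := by rw [h]
  simp only [arc, PiLp.toLp_apply, Matrix.cons_val_zero, Matrix.cons_val_one] at h0 h1
  have hs' := den_pos s
  have ht' := den_pos t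
  have e1 : 2 * s ^ 2 / (1 + s ^ 2 + s ^ 4) = s * (2 * s / (1 + s ^ 2 + s ^ 4)) := by ring
  have e2 : 2 * t ^ 2 / (1 + t ^ 2 + t ^ 4) = t * (2 * t / (1 + t ^ 2 + t ^ 4)) := by ring
  rw [e1, e2, h0] at h1
  have hpos : 0 < 2 * t / (1 + t ^ 2 + t ^ 4) := by positivity
  exact mul_right_cancel₀ hpos.ne' h1

lemma arc_inner (n : E3) (h t : ℝ) :
    inner ℝ n (arc t) = h ↔
      (n 2 - h) * t ^ 4 + (2 * n 1 + n 2 - h) * t ^ 2 + 2 * n 0 * t - (n 2 + h) = 0 := by
  have hd := den_pos t
  rw [PiLp.inner_apply, Fin.sum_univ_three]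
  simp only [arc, PiLp.toLp_apply, Matrix.cons_val_zero, Matrix.cons_val_one, Matrix.cons_val,
    RCLike.inner_apply, conj_trivial]
  constructor
  · intro hh
    field_simp at hh
    linarith
  · intro hh
    field_simp
    linarith

/-- A real polynomial `a t⁴ + b t² + c t + e` with four distinct positive roots vanishes. -/
lemma quartic {a b c e : ℝ} {p q r s : ℝ} (hp : 0 < p) (hq : 0 < q) (hr : 0 < r) (hs : 0 < s)
    (hpq : p ≠ q) (hpr : p ≠ r) (hps : p ≠ s) (hqr : q ≠ r) (hqs : q ≠ s) (hrs : r ≠ s)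
    (h1 : a * p ^ 4 + b * p ^ 2 + c * p - e = 0) (h2 : a * q ^ 4 + b * q ^ 2 + c * q - e = 0)
    (h3 : a * r ^ 4 + b * r ^ 2 + c * r - e = 0) (h4 : a * s ^ 4 + b * s ^ 2 + c * s - e = 0) :
    a = 0 ∧ b = 0 ∧ c = 0 ∧ e = 0 := by
  -- divided differences
  have d1 : a * (p ^ 3 + p ^ 2 * q + p * q ^ 2 + q ^ 3) + b * (p + q) + c = 0 := by
    have : (p - q) * (a * (p ^ 3 + p ^ 2 * q + p * q ^ 2 + q ^ 3) + b * (p + q) + c) = 0 := by
      linear_combination h1 - h2
    rcases mul_eq_zero.1 this with h | h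
    · exact absurd (sub_eq_zero.1 h) hpq
    · exact h
  have d2 : a * (p ^ 3 + p ^ 2 * r + p * r ^ 2 + r ^ 3) + b * (p + r) + c = 0 := by
    have : (p - r) * (a * (p ^ 3 + p ^ 2 * r + p * r ^ 2 + r ^ 3) + b * (p + r) + c) = 0 := by
      linear_combination h1 - h3
    rcases mul_eq_zero.1 this with h | h
    · exact absurd (sub_eq_zero.1 h) hpr
    · exact h
  have d3 : a * (p ^ 3 + p ^ 2 * s + p * s ^ 2 + s ^ 3) + b * (p + s) + c = 0 := by
    have : (p - s) * (a * (p ^ 3 + p ^ 2 * s + p * s ^ 2 + s ^ 3) + b * (p + s) + c) = 0 := by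
      linear_combination h1 - h4
    rcases mul_eq_zero.1 this with h | h
    · exact absurd (sub_eq_zero.1 h) hps
    · exact h
  have g1 : a * (p ^ 2 + q ^ 2 + r ^ 2 + p * q + p * r + q * r) + b = 0 := by
    have : (q - r) * (a * (p ^ 2 + q ^ 2 + r ^ 2 + p * q + p * r + q * r) + b) = 0 := by
      linear_combination d1 - d2
    rcases mul_eq_zero.1 this with h | h
    · exact absurd (sub_eq_zero.1 h) hqr
    · exact h
  have g2 : a * (p ^ 2 + q ^ 2 + s ^ 2 + p * q + p * s + q * s) + b = 0 := by
    have : (q - s) * (a * (p ^ 2 + q ^ 2 + s ^ 2 + p * q + p * s + q * s) + b) = 0 := by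
      linear_combination d1 - d3
    rcases mul_eq_zero.1 this with h | h
    · exact absurd (sub_eq_zero.1 h) hqs
    · exact h
  have k1 : a * (p + q + r + s) = 0 := by
    have : (r - s) * (a * (p + q + r + s)) = 0 := by
      linear_combination g1 - g2
    rcases mul_eq_zero.1 this with h | h
    · exact absurd (sub_eq_zero.1 h) hrs
    · exact h
  have ha : a = 0 := by
    rcases mul_eq_zero.1 k1 with h | h
    · exact h
    · linarith
  subst ha
  have hb : b = 0 := by linarith
  subst hb
  have hc : c = 0 := by linarith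
  subst hc
  exact ⟨rfl, rfl, rfl, by linarith⟩

lemma twisted_arc : Twisted (arc '' Icc 1 2) := by
  rintro _ ⟨p, hp, rfl⟩ _ ⟨q, hq, rfl⟩ _ ⟨r, hr, rfl⟩ _ ⟨s, hs, rfl⟩ h1 h2 h3 h4 h5 h6
  rintro ⟨n, h, hn, hall⟩
  have ne {x y : ℝ} (hxy : arc x ≠ arc y) : x ≠ y := fun e => hxy (by rw [e])
  have a1 := (arc_inner n h p).1 (hall _ (by simp))
  have a2 := (arc_inner n h q).1 (hall _ (by simp))
  have a3 := (arc_inner n h r).1 (hall _ (by simp))
  have a4 := (arc_inner n h s).1 (hall _ (by simp))
  obtain ⟨e1, e2, e3, e4⟩ := quartic (by linarith [hp.1]) (by linarith [hq.1])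
    (by linarith [hr.1]) (by linarith [hs.1]) (ne h1) (ne h2) (ne h3) (ne h4) (ne h5) (ne h6)
    a1 a2 a3 a4
  apply hn
  ext i
  fin_cases i
  · simp; linarith
  · simp; linarith
  · simp; linarith

lemma closure_vor (S : Set E3) (x : E3) :
    closure (Vor S x) ⊆ {y | ∀ z ∈ S, dist y x ≤ dist y z} := by
  apply closure_minimal
  · intro y hy z hz
    by_cases h : z = x
    · rw [h]
    · exact (hy z hz h).le
  · have : {y : E3 | ∀ z ∈ S, dist y x ≤ dist y z} = ⋂ z ∈ S, {y | dist y x ≤ dist y z} := by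
      ext y; simp
    rw [this]
    refine isClosed_biInter fun z _ => ?_
    exact isClosed_le (by fun_prop) (by fun_prop)

lemma inner_le_of_dist {y x z : E3} (hx : ‖x‖ = 1) (hz : ‖z‖ = 1) (h : dist y x ≤ dist y z) :
    inner ℝ y z ≤ inner ℝ y x := by
  have h' : ‖y - x‖ ^ 2 ≤ ‖y - z‖ ^ 2 := by
    rw [dist_eq_norm, dist_eq_norm] at h
    exact pow_le_pow_left₀ (norm_nonneg _) h 2
  rw [norm_sub_sq_real, norm_sub_sq_real, hx, hz] at h'
  linarith

lemma inner_lt_one {x z : E3} (hx : ‖x‖ = 1) (hz : ‖z‖ = 1) (h : x ≠ z) :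
    inner ℝ x z < 1 :=
  (inner_lt_one_iff_real_of_norm_eq_one hx hz).2 h

lemma indep {x y z : E3} (hx : ‖x‖ = 1) (hy : ‖y‖ = 1) (hz : ‖z‖ = 1)
    (hxy : x ≠ y) (hxz : x ≠ z) (hyz : y ≠ z) :
    LinearIndependent ℝ ![x - y, x - z] := by
  rw [LinearIndependent.pair_iff]
  intro a b hab
  have p1 := inner_lt_one hx hy hxy
  have q1 := inner_lt_one hx hz hxz
  have r1 := inner_lt_one hy hz hyz
  have nx : inner ℝ x x = (1 : ℝ) := by rw [real_inner_self_eq_norm_sq, hx]; norm_num
  have ny : inner ℝ y y = (1 : ℝ) := by rw [real_inner_self_eq_norm_sq, hy]; norm_num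
  have nz : inner ℝ z z = (1 : ℝ) := by rw [real_inner_self_eq_norm_sq, hz]; norm_num
  have cyx : inner ℝ y x = inner ℝ x y := real_inner_comm _ _
  have czx : inner ℝ z x = inner ℝ x z := real_inner_comm _ _
  have czy : inner ℝ z y = inner ℝ y z := real_inner_comm _ _
  have i1 : inner ℝ x (a • (x - y) + b • (x - z)) = 0 := by rw [hab, inner_zero_right]
  have i2 : inner ℝ y (a • (x - y) + b • (x - z)) = 0 := by rw [hab, inner_zero_right]
  have i3 : inner ℝ z (a • (x - y) + b • (x - z)) = 0 := by rw [hab, inner_zero_right]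
  simp only [inner_add_right, inner_smul_right, inner_sub_right] at i1 i2 i3
  rw [nx] at i1
  rw [ny, cyx] at i2
  rw [nz, czx, czy] at i3
  set p := inner ℝ x y
  set q := inner ℝ x z
  set r := inner ℝ y z
  have hb : b = 0 := by
    by_contra hb
    have ha : a * (1 - p) = -(b * (1 - q)) := by linarith
    have e2 : b * (1 - q + p - r) = 0 := by linarith
    have e2' : 1 - q + p - r = 0 := (mul_eq_zero.1 e2).resolve_left hb
    have e3 : b * ((1 - q) * (q - r) + (1 - q) * (1 - p)) = 0 := by
      have : (a * (1 - p)) * (q - r) + b * (q - 1) * (1 - p) = 0 := by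
        linear_combination (1 - p) * i3
      rw [ha] at this
      linarith
    have e3' := (mul_eq_zero.1 e3).resolve_left hb
    have e4 : (1 - q) * ((q - r) + (1 - p)) = 0 := by linarith
    have e4' := (mul_eq_zero.1 e4).resolve_left (by linarith)
    linarith
  refine ⟨?_, hb⟩
  rw [hb] at i1
  have : a * (1 - p) = 0 := by linarith
  exact (mul_eq_zero.1 this).resolve_right (by linarith)

/-- A set contained in the common zero set of two independent linear forms has area zero. -/
lemma area_zero {A : Set E3} {u v : E3} (h : LinearIndependent ℝ ![u, v])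
    (hA : ∀ y ∈ A, inner ℝ y u = 0 ∧ inner ℝ y v = 0) : μH[2] A = 0 := by
  set K : Submodule ℝ E3 := Submodule.span ℝ (Set.range ![u, v]) with hK
  have hfin : Module.finrank ℝ K = 2 := by
    rw [hK, finrank_span_eq_card h]
    simp
  have hort : Module.finrank ℝ Kᗮ = 1 := by
    have := Submodule.finrank_add_finrank_orthogonal K
    rw [hfin] at this
    simp at this
    omega
  have hsub : A ⊆ (Kᗮ : Set E3) := by
    intro y hy
    obtain ⟨h1, h2⟩ := hA y hy
    rw [SetLike.mem_coe, Submodule.mem_orthogonal']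
    intro w hw
    rw [hK] at hw
    have : Set.range ![u, v] = {u, v} := by
      simp [Matrix.range_cons, Matrix.range_empty]
      exact Set.pair_comm _ _ |>.symm ▸ rfl
    rw [this, Submodule.mem_span_pair] at hw
    obtain ⟨a, b, rfl⟩ := hw
    rw [inner_add_right, inner_smul_right, inner_smul_right, h1, h2]
    simp
  have hdim : dimH (Kᗮ : Set E3) = 1 := by
    have h1 : dimH ((fun x : Kᗮ => (x : E3)) '' univ) = dimH (univ : Set Kᗮ) :=
      (isometry_subtype_coe).dimH_image _
    rw [Real.dimH_univ_eq_finrank, hort] at h1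
    simpa using h1
  have hlt : dimH A < ((2 : NNReal) : ENNReal) := by
    refine lt_of_le_of_lt (dimH_mono hsub) ?_
    rw [hdim]
    norm_num
  have := hausdorffMeasure_of_dimH_lt hlt
  simpa using this

/-- Among five points of the unit sphere, two closed Voronoi regions meet in a set of area
zero. -/
lemma five {S : Set E3} (hS : ∀ x ∈ S, ‖x‖ = 1) {t : Finset E3} (htS : ↑t ⊆ S)
    (ht : t.card = 5) :
    ∃ x ∈ S, ∃ x' ∈ S, x ≠ x' ∧ μH[2] (closure (Vor S x) ∩ closure (Vor S x')) = 0 := by
  have hcard : Module.finrank ℝ E3 + 1 < t.card := by rw [ht]; simp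
  obtain ⟨f, hf1, hf2, z0, hz0, hfz0⟩ :=
    Module.exists_nontrivial_relation_sum_zero_of_finrank_succ_lt_card hcard
  -- the key step for a relation whose positive part has exactly two elements
  have key : ∀ g : E3 → ℝ, ∑ e ∈ t, g e • e = 0 → ∑ e ∈ t, g e = 0 →
      (t.filter (fun e => 0 < g e)).card = 2 → (t.filter (fun e => g e < 0)).Nonempty →
      ∃ x ∈ S, ∃ x' ∈ S, x ≠ x' ∧ μH[2] (closure (Vor S x) ∩ closure (Vor S x')) = 0 := by
    intro g g1 g2 hP hN
    obtain ⟨i, j, hij, hPe⟩ := Finset.card_eq_two.1 hP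
    obtain ⟨k, hk⟩ := hN
    rw [Finset.mem_filter] at hk
    have hi : i ∈ t ∧ 0 < g i := by
      have : i ∈ t.filter (fun e => 0 < g e) := by rw [hPe]; simp
      exact Finset.mem_filter.1 this
    have hj : j ∈ t ∧ 0 < g j := by
      have : j ∈ t.filter (fun e => 0 < g e) := by rw [hPe]; simp
      exact Finset.mem_filter.1 this
    have hki : i ≠ k := by
      rintro rfl
      linarith [hi.2, hk.2]
    have hkj : j ≠ k := by
      rintro rfl
      linarith [hj.2, hk.2]
    refine ⟨i, htS hi.1, j, htS hj.1, hij, ?_⟩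
    have n1 := hS i (htS hi.1)
    have n2 := hS j (htS hj.1)
    have n3 := hS k (htS hk.1)
    refine area_zero (indep n1 n2 n3 hij hki hkj) ?_
    rintro y ⟨hyi, hyj⟩
    have hyi' := closure_vor S i hyi
    have hyj' := closure_vor S j hyj
    have e1 : inner ℝ y j ≤ inner ℝ y i := inner_le_of_dist n1 n2 (hyi' j (htS hj.1))
    have e2 : inner ℝ y i ≤ inner ℝ y j := inner_le_of_dist n2 n1 (hyj' i (htS hi.1))
    have e3 : inner ℝ y i = inner ℝ y j := le_antisymm e2 e1
    have sum0 : ∑ e ∈ t, g e * (inner ℝ y i - inner ℝ y e) = 0 := by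
      have h1 : inner ℝ y (∑ e ∈ t, g e • e) = 0 := by rw [g1, inner_zero_right]
      rw [inner_sum] at h1
      simp only [inner_smul_right] at h1
      simp only [mul_sub, Finset.sum_sub_distrib, h1, ← Finset.sum_mul, g2]
      ring
    have hterm : ∀ e ∈ t, g e * (inner ℝ y i - inner ℝ y e) ≤ 0 := by
      intro e he
      have hle : inner ℝ y e ≤ inner ℝ y i := inner_le_of_dist n1 (hS e (htS he)) (hyi' e (htS he))
      rcases lt_or_ge 0 (g e) with hpos | hneg
      · have : e ∈ t.filter (fun e => 0 < g e) := Finset.mem_filter.2 ⟨he, hpos⟩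
        rw [hPe] at this
        simp only [Finset.mem_insert, Finset.mem_singleton] at this
        rcases this with rfl | rfl
        · simp
        · rw [e3]; simp
      · exact mul_nonpos_of_nonpos_of_nonneg hneg (by linarith)
    have hk0 := (Finset.sum_eq_zero_iff_of_nonpos hterm).1 sum0 k hk.1
    have hk1 : inner ℝ y i - inner ℝ y k = 0 := (mul_eq_zero.1 hk0).resolve_left hk.2.ne
    constructor
    · rw [inner_sub_right, e3]; simp
    · rw [inner_sub_right]; exact hk1
  -- no relation with exactly one positive coefficient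
  have one : ∀ g : E3 → ℝ, ∑ e ∈ t, g e • e = 0 → ∑ e ∈ t, g e = 0 → (∃ x ∈ t, g x ≠ 0) →
      2 ≤ (t.filter (fun e => 0 < g e)).card := by
    intro g g1 g2 ⟨x, hx, hgx⟩
    by_contra hcon
    have hpos : (t.filter (fun e => 0 < g e)).Nonempty := by
      by_contra hne
      rw [Finset.not_nonempty_iff_eq_empty, Finset.filter_eq_empty_iff] at hne
      have hle : ∀ e ∈ t, g e ≤ 0 := fun e he => not_lt.1 (hne he)
      exact hgx ((Finset.sum_eq_zero_iff_of_nonpos hle).1 g2 x hx)
    have h1 : (t.filter (fun e => 0 < g e)).card = 1 := by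
      have := hpos.card_pos
      omega
    obtain ⟨i, hPe⟩ := Finset.card_eq_one.1 h1
    have hi : i ∈ t ∧ 0 < g i := by
      have : i ∈ t.filter (fun e => 0 < g e) := by rw [hPe]; simp
      exact Finset.mem_filter.1 this
    have n1 := hS i (htS hi.1)
    have sum0 : ∑ e ∈ t, g e * (1 - inner ℝ i e) = 0 := by
      have h1 : inner ℝ i (∑ e ∈ t, g e • e) = 0 := by rw [g1, inner_zero_right]
      rw [inner_sum] at h1
      simp only [inner_smul_right] at h1
      simp only [mul_sub, Finset.sum_sub_distrib, h1, mul_one, g2]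
      ring
    have hterm : ∀ e ∈ t, g e * (1 - inner ℝ i e) ≤ 0 := by
      intro e he
      by_cases hei : i = e
      · subst hei
        rw [real_inner_self_eq_norm_sq, n1]; simp
      · have hlt := inner_lt_one n1 (hS e (htS he)) hei
        have : g e ≤ 0 := by
          by_contra hh
          have : e ∈ t.filter (fun e => 0 < g e) := Finset.mem_filter.2 ⟨he, not_le.1 hh⟩
          rw [hPe, Finset.mem_singleton] at this
          exact hei this.symm
        exact mul_nonpos_of_nonpos_of_nonneg this (by linarith)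
    have hz : ∀ e ∈ t, e ≠ i → g e = 0 := by
      intro e he hei
      have h0 := (Finset.sum_eq_zero_iff_of_nonpos hterm).1 sum0 e he
      have hlt := inner_lt_one n1 (hS e (htS he)) (Ne.symm hei)
      exact (mul_eq_zero.1 h0).resolve_right (by linarith)
    have : ∑ e ∈ t, g e = g i := Finset.sum_eq_single_of_mem i hi.1 (fun e he hei => hz e he hei)
    linarith [hi.2]
  have hneg1 : ∑ e ∈ t, (fun e => - f e) e • e = 0 := by
    simp only [neg_smul, Finset.sum_neg_distrib, hf1, neg_zero]
  have hneg2 : ∑ e ∈ t, (fun e => - f e) e = 0 := by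
    simp only [Finset.sum_neg_distrib, hf2, neg_zero]
  have c1 := one f hf1 hf2 ⟨z0, hz0, hfz0⟩
  have c2 := one (fun e => - f e) hneg1 hneg2 ⟨z0, hz0, by simpa using hfz0⟩
  have c2' : 2 ≤ (t.filter (fun e => f e < 0)).card := by simpa using c2
  have hdisj : Disjoint (t.filter (fun e => 0 < f e)) (t.filter (fun e => f e < 0)) := by
    rw [Finset.disjoint_filter]
    intro e _ h1 h2
    linarith
  have hsum : (t.filter (fun e => 0 < f e)).card + (t.filter (fun e => f e < 0)).card ≤ 5 := by
    rw [← Finset.card_union_of_disjoint hdisj, ← ht]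
    apply Finset.card_le_card
    intro e he
    rw [Finset.mem_union, Finset.mem_filter, Finset.mem_filter] at he
    rcases he with h | h
    · exact h.1
    · exact h.1
  by_cases hP2 : (t.filter (fun e => 0 < f e)).card = 2
  · exact key f hf1 hf2 hP2 (Finset.card_pos.1 (by omega))
  · have hN2 : (t.filter (fun e => f e < 0)).card = 2 := by omega
    refine key (fun e => - f e) hneg1 hneg2 ?_ ?_
    · simpa using hN2
    · have : (t.filter (fun e => 0 < f e)).Nonempty := Finset.card_pos.1 (by omega)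
      simpa using this

/-- There is a twisted curve `γ` such that for every infinite `S ⊆ γ` the closed Voronoi regions
of some two distinct points of `S` meet in a set of zero area. -/
theorem result :
    ∃ γ : Set E3, IsCurve γ ∧ Twisted γ ∧
      ∀ S : Set E3, S ⊆ γ → S.Infinite →
        ∃ x ∈ S, ∃ x' ∈ S, x ≠ x' ∧
          μH[2] (closure (Vor S x) ∩ closure (Vor S x')) = 0 := by
  refine ⟨arc '' Icc 1 2, ⟨Icc 1 2, arc, ordConnected_Icc, ?_, arc_cont.continuousOn, ?_, rfl⟩,
    twisted_arc, ?_⟩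
  · exact ⟨1, by norm_num, 2, by norm_num, by norm_num⟩
  · intro s _ t ht h
    exact arc_inj (by linarith [ht.1]) h
  · intro S hS hinf
    obtain ⟨t, htS, ht⟩ := hinf.exists_subset_card_eq 5
    refine five ?_ htS ht
    intro x hx
    obtain ⟨s, _, rfl⟩ := hS hx
    exact arc_norm s

end Pool.Agent.Results.MP_5b0acc_co.SphericalTwisted
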